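import Pool.Agent.Helper51.REC.Goals1
import Pool.Agent.Helper40.RD.TRF

/-!
# Project REC (MP_fc6b1e_nt), packet H_CNT: the number of primes above `S` with trivial decomposition groups
-/

namespace Pool.Agent.Helper85.REC

open NumberField Module IsDedekindDomain Pool.Agent.Helper51.RP Pool.Agent.Helper42.PP
open Pool.Agent.Helper51.REC
open Pool.Agent.Helper40.RS (bel gw gw_inj lies bel_smul)
open Pool.Agent.Helper40.RD (bel_of_above)
open scoped Pointwise

/-- Above every prime there is a prime. -/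
theorem exists_above (F E : Type) [Field F] [NumberField F] [Field E] [NumberField E]
    [Algebra F E] (v : HeightOneSpectrum (𝓞 F)) : ∃ w : HeightOneSpectrum (𝓞 E), Above w v := by
  have hv : v.asIdeal.IsMaximal := v.isMaximal
  obtain ⟨P, hP, hl⟩ := Ideal.exists_maximal_ideal_liesOver_of_isIntegral (S := 𝓞 E) v.asIdeal
  have hne : P ≠ ⊥ := by
    rintro rfl
    apply v.ne_bot
    rw [hl.over]
    exact Ideal.under_bot _ _
  exact ⟨⟨P, hP.isPrime, hne⟩, hl.over.symm⟩

theorem h_cnt : Pool.Agent.Helper51.REC.H_CNT := by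
  classical
  intro F E _ _ _ _ _ _ S hS hfree
  choose W hW using exists_above F E
  let Φ : HeightOneSpectrum (𝓞 F) × (E ≃ₐ[F] E) → HeightOneSpectrum (𝓞 E) :=
    fun p => gw p.2 (W p.1)
  have hbel : ∀ p, bel F (Φ p) = p.1 := by
    intro p
    have h1 : bel F (Φ p) = bel F (W p.1) := bel_smul p.2 (W p.1) (Φ p) rfl
    rw [h1]
    exact bel_of_above (hW p.1)
  have himg : upS E S = Φ '' (S ×ˢ Set.univ) := by
    ext w
    constructor
    · rintro ⟨v, hv, hwv⟩
      have h1 : bel F w = bel F (W v) := by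
        rw [bel_of_above hwv, bel_of_above (hW v)]
      have h2 : w.asIdeal.LiesOver (bel F (W v)).asIdeal := by rw [← h1]; infer_instance
      obtain ⟨g, hg⟩ := Ideal.exists_smul_eq_of_isGaloisGroup (bel F (W v)).asIdeal
        (W v).asIdeal w.asIdeal (E ≃ₐ[F] E)
      refine ⟨(v, g), ⟨hv, Set.mem_univ _⟩, ?_⟩
      exact HeightOneSpectrum.ext hg
    · rintro ⟨p, hp, rfl⟩
      exact ⟨p.1, hp.1, congrArg HeightOneSpectrum.asIdeal (hbel p)⟩
  have hinj : Set.InjOn Φ (S ×ˢ Set.univ) := by
    rintro ⟨v, g⟩ hp ⟨v', g'⟩ _ h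
    have h1 : v = v' := by
      have h3 := congrArg (bel F) h
      rwa [hbel, hbel] at h3
    subst h1
    have h2 : g = g' := gw_inj (W v) (hfree v hp.1 (W v) (hW v)) h
    rw [h2]
  have hfin : (S ×ˢ (Set.univ : Set (E ≃ₐ[F] E))).Finite := hS.prod Set.finite_univ
  constructor
  · rw [himg]
    exact hfin.image _
  · rw [himg, hinj.ncard_image, Set.ncard_prod, Set.ncard_univ, IsGalois.card_aut_eq_finrank,
      mul_comm]

end Pool.Agent.Helper85.REC
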